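import Pool.Agent.helper99.WN.SpecA

set_option autoImplicit false

open Classical

namespace Pool.Agent.WN

/-- the key of a word -/
noncomputable def BO_key {k : ℕ} (u : List (Fin k)) : ℕ ×ₗ ℕ := toLex (u.length, Encodable.encode u)

theorem BO_key_inj {k : ℕ} : Function.Injective (BO_key (k := k)) := by
  intro u v h
  unfold BO_key at h
  have h1 := congrArg (fun q => (ofLex q).2) h
  exact Encodable.encode_injective h1

theorem BO_key_lt {k : ℕ} {u v : List (Fin k)} (h : u.length < v.length) : BO_key u < BO_key v := by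
  unfold BO_key
  exact Prod.Lex.toLex_lt_toLex.2 (Or.inl h)

/-- the relation -/
def BO_R {k : ℕ} (μ : Fr k → List (Fin k) → ℤ) (a b : Fr k) : Prop :=
  ∃ u, (∀ v, BO_key v < BO_key u → μ a v = μ b v) ∧ μ a u < μ b u

theorem BO_sto {k : ℕ} (μ : Fr k → List (Fin k) → ℤ) (hμ : Function.Injective μ) :
    IsStrictTotalOrder (Fr k) (BO_R μ) := by
  have hirr : ∀ a, ¬ BO_R μ a a := by
    rintro a ⟨u, -, h⟩
    exact lt_irrefl _ h
  have htr : ∀ a b c, BO_R μ a b → BO_R μ b c → BO_R μ a c := by
    rintro a b c ⟨u, h1, h2⟩ ⟨w, h3, h4⟩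
    rcases lt_trichotomy (BO_key u) (BO_key w) with h | h | h
    · refine ⟨u, fun v hv => ?_, ?_⟩
      · rw [h1 v hv, h3 v (hv.trans h)]
      · rw [← h3 u h]; exact h2
    · have := BO_key_inj h
      subst this
      refine ⟨u, fun v hv => ?_, h2.trans h4⟩
      rw [h1 v hv, h3 v hv]
    · refine ⟨w, fun v hv => ?_, ?_⟩
      · rw [h1 v (hv.trans h), h3 v hv]
      · rw [h1 w h]; exact h4
  have htri : ∀ a b, BO_R μ a b ∨ a = b ∨ BO_R μ b a := by
    intro a b
    by_cases hab : a = b
    · exact Or.inr (Or.inl hab)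
    · have hne : μ a ≠ μ b := fun h => hab (hμ h)
      obtain ⟨u0, hu0⟩ := Function.ne_iff.1 hne
      have hwf : WellFounded (InvImage (fun x y : ℕ ×ₗ ℕ => x < y) (BO_key (k := k))) :=
        InvImage.wf _ wellFounded_lt
      obtain ⟨u, hu, hmin⟩ := hwf.has_min {u | μ a u ≠ μ b u} ⟨u0, hu0⟩
      have heq : ∀ v, BO_key v < BO_key u → μ a v = μ b v := by
        intro v hv
        by_contra hne'
        exact hmin v hne' hv
      rcases lt_or_gt_of_ne hu with h | h
      · exact Or.inl ⟨u, heq, h⟩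
      · exact Or.inr (Or.inr ⟨u, fun v hv => (heq v hv).symm, h⟩)
  exact { irrefl := hirr, trans := htr, trichotomous := by
            intro a b h1 h2
            rcases htri a b with h | h | h
            · exact absurd h h1
            · exact h
            · exact absurd h h2 }

theorem BO_SL {k : ℕ} (x : Fin k) (f g : List (Fin k) → ℤ) (u : List (Fin k))
    (h : ∀ v, BO_key v < BO_key u → f v = g v) (v : List (Fin k)) (hv : BO_key v ≤ BO_key u) :
    SL x f v = SL x g v := by
  cases v with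
  | nil => rfl
  | cons y w =>
    have e := h w (lt_of_lt_of_le (BO_key_lt (by simp)) hv)
    show (if y = x ∧ w.head? ≠ some x then f w else 0) = if y = x ∧ w.head? ≠ some x then g w else 0
    rw [e]

theorem BO_SR {k : ℕ} (x : Fin k) (f g : List (Fin k) → ℤ) (u : List (Fin k))
    (h : ∀ v, BO_key v < BO_key u → f v = g v) (v : List (Fin k)) (hv : BO_key v ≤ BO_key u) :
    SR x f v = SR x g v := by
  unfold SR
  by_cases hc : v.getLast? = some x ∧ v.dropLast.getLast? ≠ some x
  · rw [if_pos hc, if_pos hc]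
    apply h
    refine lt_of_lt_of_le (BO_key_lt ?_) hv
    have hne : v ≠ [] := by
      rintro rfl
      simp at hc
    rw [List.length_dropLast]
    have := List.length_pos_iff.2 hne
    omega
  · rw [if_neg hc, if_neg hc]

theorem BO (hMG : MG_stmt) : BO_stmt := by
  intro k
  obtain ⟨μ, hinj, hL, hR⟩ := hMG k
  haveI hsto := BO_sto μ hinj
  let o : LinearOrder (Fr k) := linearOrderOfSTO (BO_R μ)
  refine ⟨o, ?_⟩
  have hlt : ∀ a b, o.lt a b ↔ BO_R μ a b := fun a b => Iff.rfl
  have hxl : ∀ (x : Fin k) (a b : Fr k), BO_R μ a b → BO_R μ (FreeGroup.of x * a) (FreeGroup.of x * b) := by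
    rintro x a b ⟨u, h1, h2⟩
    refine ⟨u, fun v hv => ?_, ?_⟩
    · rw [hL, hL, h1 v hv, BO_SL x _ _ u h1 v hv.le]
    · rw [hL, hL, BO_SL x _ _ u h1 u le_rfl]
      omega
  have hxr : ∀ (x : Fin k) (a b : Fr k), BO_R μ a b → BO_R μ (a * FreeGroup.of x) (b * FreeGroup.of x) := by
    rintro x a b ⟨u, h1, h2⟩
    refine ⟨u, fun v hv => ?_, ?_⟩
    · rw [hR, hR, h1 v hv, BO_SR x _ _ u h1 v hv.le]
    · rw [hR, hR, BO_SR x _ _ u h1 u le_rfl]
      omega
  have htri : ∀ a b, BO_R μ a b ∨ a = b ∨ BO_R μ b a := fun a b => trichotomous_of (BO_R μ) a b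
  have hirr : ∀ a, ¬ BO_R μ a a := fun a => irrefl_of (BO_R μ) a
  have htr : ∀ a b c, BO_R μ a b → BO_R μ b c → BO_R μ a c := fun a b c h1 h2 =>
    trans_of (BO_R μ) h1 h2
  -- general principle: an injective map preserving the relation reflects it
  have hrefl : ∀ φ : Fr k → Fr k, (∀ a b, BO_R μ a b → BO_R μ (φ a) (φ b)) →
      ∀ a b, BO_R μ (φ a) (φ b) → BO_R μ a b := by
    intro φ hφ a b h
    rcases htri a b with h1 | h1 | h1
    · exact h1
    · rw [h1] at h; exact absurd h (hirr _)
    · exact absurd (htr _ _ _ h (hφ _ _ h1)) (hirr _)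
  have hl : ∀ c a b : Fr k, BO_R μ a b → BO_R μ (c * a) (c * b) := by
    intro c
    induction c using FreeGroup.induction_on with
    | C1 => intro a b h; rwa [one_mul, one_mul]
    | of x => exact hxl x
    | inv_of x ih =>
      intro a b h
      apply hrefl (fun y => FreeGroup.of x * y) (fun a b => hxl x a b)
      show BO_R μ (FreeGroup.of x * ((FreeGroup.of x)⁻¹ * a)) (FreeGroup.of x * ((FreeGroup.of x)⁻¹ * b))
      rwa [mul_inv_cancel_left, mul_inv_cancel_left]
    | mul x y ihx ihy =>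
      intro a b h
      rw [mul_assoc, mul_assoc]
      exact ihx _ _ (ihy _ _ h)
  have hr : ∀ c a b : Fr k, BO_R μ a b → BO_R μ (a * c) (b * c) := by
    intro c
    induction c using FreeGroup.induction_on with
    | C1 => intro a b h; rwa [mul_one, mul_one]
    | of x => exact hxr x
    | inv_of x ih =>
      intro a b h
      apply hrefl (fun y => y * FreeGroup.of x) (fun a b => hxr x a b)
      show BO_R μ (a * (FreeGroup.of x)⁻¹ * FreeGroup.of x) (b * (FreeGroup.of x)⁻¹ * FreeGroup.of x)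
      rwa [inv_mul_cancel_right, inv_mul_cancel_right]
    | mul x y ihx ihy =>
      intro a b h
      rw [← mul_assoc, ← mul_assoc]
      exact ihy _ _ (ihx _ _ h)
  intro a b c h
  exact ⟨hl c a b h, hr c a b h⟩

end Pool.Agent.WN
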