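import Pool.Agent.helper99.WN.SpecB

set_option autoImplicit false

open Classical

namespace Pool.Agent.WN

theorem BS_tel {ι : Type} (d : ℤ → ℤ) (J : Finset ι) (g : ι → ℤ)
    (hg : ∀ i ∈ J, ∀ j ∈ J, g i = g j → i = j)
    (h1 : ∀ ρ, (∀ i ∈ J, g i ≠ ρ) → d (ρ + 1) = d ρ) (lo : ℤ) (n : ℕ)
    (hb : ∀ i ∈ J, lo ≤ g i ∧ g i < lo + n) :
    ∑ i ∈ J, (d (g i + 1) - d (g i)) = d (lo + n) - d lo := by
  have h2 := Finset.sum_range_sub (fun j : ℕ => d (lo + j)) n
  simp only [Nat.cast_zero, add_zero] at h2
  rw [← h2]
  have h3 : ∑ j ∈ J.image (fun i => (g i - lo).toNat), (d (lo + ((j + 1 : ℕ) : ℤ)) - d (lo + (j : ℤ))) =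
      ∑ i ∈ J, (d (g i + 1) - d (g i)) := by
    rw [Finset.sum_image]
    · refine Finset.sum_congr rfl fun i hi => ?_
      have := hb i hi
      have e1 : lo + (((g i - lo).toNat + 1 : ℕ) : ℤ) = g i + 1 := by omega
      have e2 : lo + ((g i - lo).toNat : ℤ) = g i := by omega
      rw [e1, e2]
    · intro i hi j hj hij
      have hi' := hb i hi
      have hj' := hb j hj
      have hij' : (g i - lo).toNat = (g j - lo).toNat := hij
      exact hg i hi j hj (by omega)
  rw [← h3]
  refine Finset.sum_subset ?_ ?_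
  · intro j hj
    rw [Finset.mem_image] at hj
    obtain ⟨i, hi, rfl⟩ := hj
    have := hb i hi
    rw [Finset.mem_range]
    omega
  · intro j _ hj
    have h4 : d (lo + (j : ℤ) + 1) = d (lo + (j : ℤ)) := by
      apply h1
      intro i hi hgi
      apply hj
      rw [Finset.mem_image]
      exact ⟨i, hi, by rw [hgi]; omega⟩
    have e1 : lo + ((j + 1 : ℕ) : ℤ) = lo + (j : ℤ) + 1 := by push_cast; ring
    rw [e1, h4, sub_self]

theorem BS_single {X : Type} (i1 i2 : DecidableEq X) (a : X) :
    (@Pi.single X (fun _ => ℚ) _ i1 a 1 : X → ℚ) = @Pi.single X (fun _ => ℚ) _ i2 a 1 := by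
  rw [Subsingleton.elim i1 i2]

theorem BS_al {k : ℕ} {W : ℤ → Lt k} {N : ℕ} (hW : Wd W N) {a b : ℤ} (h : (N : ℤ) ∣ a - b) :
    al W a - al W b = a - b := by
  have h1 : W a = W b := hW.per_dvd h
  unfold al
  rw [h1]
  split_ifs <;> ring

theorem BS : BS_stmt := by
  intro V _ k W N r z hW hr
  obtain ⟨M, hM⟩ : ∃ M : ℕ, ∀ a : ℤ, -(M : ℤ) ≤ r a ∧ r a < M := by
    refine ⟨∑ i ∈ Finset.range N, (r i).natAbs + 1, fun a => ?_⟩
    have hN := hW.pos
    have h1 : (N : ℤ) ∣ a - (a % N) := Int.dvd_self_sub_emod
    have h2 : r a = r (a % N) := hr.dvd h1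
    have h3 : 0 ≤ a % N := Int.emod_nonneg _ (by omega)
    have h4 : a % N < N := Int.emod_lt_of_pos _ (by omega)
    have h5 : (r (a % N)).natAbs ≤ ∑ i ∈ Finset.range N, (r i).natAbs := by
      have h6 : (((a % N).toNat : ℕ) : ℤ) = a % N := Int.toNat_of_nonneg h3
      have h7 := Finset.single_le_sum (f := fun i : ℕ => (r (i : ℤ)).natAbs) (s := Finset.range N)
        (fun _ _ => Nat.zero_le _) (Finset.mem_range.2 (by omega) : (a % N).toNat ∈ Finset.range N)
      rw [h6] at h7
      exact h7
    rw [h2]
    omega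
  have hred : ∀ a : ℤ, ∃ i ∈ Finset.range N, (N : ℤ) ∣ a - (i : ℤ) := by
    intro a
    have hN := hW.pos
    have h3 : 0 ≤ a % N := Int.emod_nonneg _ (by omega)
    have h4 : a % N < N := Int.emod_lt_of_pos _ (by omega)
    refine ⟨(a % N).toNat, Finset.mem_range.2 (by omega), ?_⟩
    rw [Int.toNat_of_nonneg h3]
    exact Int.dvd_self_sub_emod
  have huniq : ∀ i ∈ Finset.range N, ∀ j ∈ Finset.range N, (N : ℤ) ∣ (i : ℤ) - (j : ℤ) → i = j := by
    intro i hi j hj h
    rw [Finset.mem_range] at hi hj
    obtain ⟨q, hq⟩ := h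
    have hq0 : q = 0 := by
      by_contra hne
      rcases lt_or_gt_of_ne hne with h | h
      · have : (N : ℤ) * q ≤ -(N : ℤ) := by nlinarith [hW.pos]
        omega
      · have : (N : ℤ) ≤ (N : ℤ) * q := by nlinarith [hW.pos]
        omega
    rw [hq0, mul_zero] at hq
    omega
  constructor
  · -- first formula
    have h : ∑ i ∈ Finset.range N, ((Module.finrank ℚ (uu N r z (r (i : ℤ) + 1)) : ℤ) -
        Module.finrank ℚ (uu N r z (r (i : ℤ)))) =
        (Module.finrank ℚ (uu N r z (-(M : ℤ) + ((2 * M : ℕ) : ℤ))) : ℤ) -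
          Module.finrank ℚ (uu N r z (-(M : ℤ))) :=
      BS_tel (fun ρ => (Module.finrank ℚ (uu N r z ρ) : ℤ)) (Finset.range N)
      (fun i : ℕ => r (i : ℤ)) (by
        intro i hi j hj hij
        exact huniq i hi j hj (hr.inj _ _ hij)) (by
        intro ρ hρ
        have : uu N r z (ρ + 1) = uu N r z ρ := by
          unfold uu
          congr 1
          ext v
          simp only [Set.mem_setOf_eq]
          constructor
          · rintro ⟨a, b, h1, h2, h3⟩
            refine ⟨a, b, h1, ?_, h3⟩
            obtain ⟨i, hi, hai⟩ := hred a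
            have h4 := hρ i hi
            have h5 : r a = r i := hr.dvd hai
            have h6 : r a ≠ ρ := by rw [h5]; exact h4
            omega
          · rintro ⟨a, b, h1, h2, h3⟩
            exact ⟨a, b, h1, by omega, h3⟩
        show (Module.finrank ℚ (uu N r z (ρ + 1)) : ℤ) = Module.finrank ℚ (uu N r z ρ)
        rw [this]) (-(M : ℤ)) (2 * M) (by
        intro i _
        have := hM i
        push_cast
        omega)
    have e1 : uu N r z (-(M : ℤ)) = ⊥ := by
      unfold uu
      rw [Submodule.span_eq_bot]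
      rintro v ⟨a, b, h1, h2, h3⟩
      have := (hM a).1
      omega
    have e2 : uu N r z (-(M : ℤ) + ((2 * M : ℕ) : ℤ)) = dif N z := by
      unfold uu dif
      congr 1
      ext v
      simp only [Set.mem_setOf_eq]
      constructor
      · rintro ⟨a, b, h1, -, h3⟩
        exact ⟨a, b, h1, h3⟩
      · rintro ⟨a, b, h1, h3⟩
        refine ⟨a, b, h1, ?_, h3⟩
        have := (hM a).2
        push_cast
        omega
    rw [e1, e2, finrank_bot, Nat.cast_zero, sub_zero] at h
    exact h
  · -- second formula
    have hx : ∀ x : Fin k, ∑ i ∈ (Finset.range N).filter (fun i : ℕ => (W (i : ℤ)).1 = x),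
        la W N r z (i : ℤ) = Module.finrank ℚ (dd W N r z x M) := by
      intro x
      have h : ∑ i ∈ (Finset.range N).filter (fun i : ℕ => (W (i : ℤ)).1 = x),
          ((Module.finrank ℚ (dd W N r z x (r (al W (i : ℤ)) + 1)) : ℤ) -
            Module.finrank ℚ (dd W N r z x (r (al W (i : ℤ))))) =
          (Module.finrank ℚ (dd W N r z x (-(M : ℤ) + ((2 * M : ℕ) : ℤ))) : ℤ) -
            Module.finrank ℚ (dd W N r z x (-(M : ℤ))) :=
        BS_tel (fun ρ => (Module.finrank ℚ (dd W N r z x ρ) : ℤ))
        ((Finset.range N).filter (fun i : ℕ => (W (i : ℤ)).1 = x))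
        (fun i : ℕ => r (al W (i : ℤ))) (by
          intro i hi j hj hij
          rw [Finset.mem_filter] at hi hj
          exact huniq i hi.1 j hj.1 (al_inj hW (hi.2.trans hj.2.symm) (hr.inj _ _ hij))) (by
          intro ρ hρ
          have : dd W N r z x (ρ + 1) = dd W N r z x ρ := by
            unfold dd
            congr 1
            ext v
            simp only [Set.mem_setOf_eq]
            constructor
            · rintro ⟨a, b, h1, h2, h3, h4⟩
              refine ⟨a, b, h1, h2, ?_, h4⟩
              obtain ⟨i, hi, hai⟩ := hred a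
              have hWa : W a = W i := hW.per_dvd hai
              have h5 := hρ i (Finset.mem_filter.2 ⟨hi, by rw [← hWa]; exact h2⟩)
              have h6 : r (al W a) = r (al W i) := hr.dvd (by rw [BS_al hW hai]; exact hai)
              have h7 : r (al W a) ≠ ρ := by rw [h6]; exact h5
              omega
            · rintro ⟨a, b, h1, h2, h3, h4⟩
              exact ⟨a, b, h1, h2, by omega, h4⟩
          show (Module.finrank ℚ (dd W N r z x (ρ + 1)) : ℤ) = Module.finrank ℚ (dd W N r z x ρ)
          rw [this]) (-(M : ℤ)) (2 * M) (by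
          intro i _
          have := hM (al W i)
          push_cast
          omega)
      have e1 : dd W N r z x (-(M : ℤ)) = ⊥ := by
        unfold dd
        rw [Submodule.span_eq_bot]
        rintro v ⟨a, b, h1, h2, h3, h4⟩
        have := (hM (al W a)).1
        omega
      have e2 : (-(M : ℤ) + ((2 * M : ℕ) : ℤ)) = M := by push_cast; ring
      rw [e1, e2, finrank_bot, Nat.cast_zero, sub_zero] at h
      rw [← h]
      refine Finset.sum_congr rfl fun i hi => ?_
      rw [Finset.mem_filter] at hi
      unfold la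
      rw [hi.2]
    have hsum : ∑ i ∈ Finset.range N, la W N r z (i : ℤ) =
        ∑ x : Fin k, (Module.finrank ℚ (dd W N r z x M) : ℤ) := by
      rw [← Finset.sum_fiberwise (Finset.range N) (fun i : ℕ => (W (i : ℤ)).1)]
      exact Finset.sum_congr rfl fun x _ => hx x
    rw [hsum]
    -- the direct sum
    have hsupp : ∀ (x : Fin k) (v : V × Fin k × V → ℚ), v ∈ dd W N r z x M →
        ∀ d : V × Fin k × V, d.2.1 ≠ x → v d = 0 := by
      intro x v hv
      unfold dd at hv
      induction hv using Submodule.span_induction with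
      | mem v hv =>
        obtain ⟨a, b, h1, h2, h3, rfl⟩ := hv
        intro d hd
        have hWb : (W b).1 = x := by rw [← hW.per_dvd h1]; exact h2
        rw [Pi.sub_apply, Pi.single_eq_of_ne, Pi.single_eq_of_ne, sub_self]
        · rintro rfl
          exact hd (by rw [ed_letter]; exact hWb)
        · rintro rfl
          exact hd (by rw [ed_letter]; exact h2)
      | zero => intro d _; rfl
      | add v w _ _ hv hw =>
        intro d hd
        rw [Pi.add_apply, hv d hd, hw d hd, add_zero]
      | smul c v _ hv =>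
        intro d hd
        rw [Pi.smul_apply, hv d hd, smul_zero]
    have hle : ∀ x : Fin k, dd W N r z x M ≤ dif N (ed W z) := by
      intro x
      unfold dd dif
      apply Submodule.span_mono
      rintro v ⟨a, b, h1, -, -, h4⟩
      exact ⟨a, b, h1, h4.trans (congrArg₂ (· - ·) (BS_single _ _ _) (BS_single _ _ _))⟩
    let Ψ : ((x : Fin k) → dd W N r z x M) →ₗ[ℚ] (V × Fin k × V → ℚ) :=
      ∑ x : Fin k, (dd W N r z x M).subtype.comp (LinearMap.proj x)
    have hΨ : ∀ v, Ψ v = ∑ x : Fin k, (v x : V × Fin k × V → ℚ) := by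
      intro v
      simp only [Ψ, LinearMap.sum_apply, LinearMap.comp_apply, LinearMap.proj_apply,
        Submodule.subtype_apply]
    have hinj : Function.Injective Ψ := by
      rw [← LinearMap.ker_eq_bot, LinearMap.ker_eq_bot']
      intro v hv
      rw [hΨ] at hv
      funext x
      apply Subtype.ext
      funext d
      show (v x : V × Fin k × V → ℚ) d = 0
      by_cases hd : d.2.1 = x
      · have h1 := congrFun hv d
        rw [Finset.sum_apply, Finset.sum_eq_single x] at h1
        · exact h1
        · intro y _ hyx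
          exact hsupp y _ (v y).2 d (fun h => hyx (h.symm.trans hd))
        · intro h; exact absurd (Finset.mem_univ x) h
      · exact hsupp x _ (v x).2 d hd
    have hrange : LinearMap.range Ψ = dif N (ed W z) := by
      apply le_antisymm
      · rintro _ ⟨v, rfl⟩
        rw [hΨ]
        exact Submodule.sum_mem _ fun x _ => hle x (v x).2
      · unfold dif
        rw [Submodule.span_le]
        rintro v ⟨a, b, h1, rfl⟩
        have hmem : (Pi.single (ed W z a) 1 - Pi.single (ed W z b) 1 : V × Fin k × V → ℚ) ∈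
            dd W N r z (W a).1 M := by
          unfold dd
          exact Submodule.subset_span ⟨a, b, h1, rfl, (hM _).2, rfl⟩
        refine ⟨Pi.single (W a).1 ⟨_, hmem⟩, ?_⟩
        rw [hΨ, Finset.sum_eq_single (W a).1]
        · rw [Pi.single_eq_same]
          exact congrArg₂ (· - ·) (BS_single _ _ _) (BS_single _ _ _)
        · intro y _ hy
          rw [Pi.single_eq_of_ne hy]
          rfl
        · intro h; exact absurd (Finset.mem_univ _) h
    rw [← hrange, LinearMap.finrank_range_of_inj hinj, Module.finrank_pi_fintype]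
    push_cast
    rfl

end Pool.Agent.WN
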