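import Pool.Agent.helper99.WN.SpecA

set_option autoImplicit false

open Classical

namespace Pool.Agent.WN

theorem FU_ext {V : Type} [Finite V] (P : V → V → Prop) (h1 : ∀ a b b', P a b → P a b' → b = b')
    (h2 : ∀ a a' b, P a b → P a' b → a = a') : ∃ σ : Equiv.Perm V, ∀ a b, P a b → σ a = b := by
  haveI := Fintype.ofFinite V
  let f : V → V := fun a => if h : ∃ b, P a b then h.choose else a
  have hf : ∀ a b, P a b → f a = b := by
    intro a b hab
    have hex : ∃ b, P a b := ⟨b, hab⟩
    have : f a = hex.choose := dif_pos hex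
    rw [this]
    exact h1 _ _ _ hex.choose_spec hab
  obtain ⟨g, hg⟩ := Finset.exists_equiv_extend_of_card_eq (α := V) (β := V) (t := Finset.univ)
    (by simp) (s := Finset.univ.filter fun a => ∃ b, P a b) (f := f) (Finset.subset_univ _) (by
      intro a ha a' ha' h
      rw [Finset.mem_coe, Finset.mem_filter] at ha ha'
      obtain ⟨-, b, hb⟩ := ha
      obtain ⟨-, b', hb'⟩ := ha'
      rw [hf a b hb, hf a' b' hb'] at h
      subst h
      exact h2 _ _ _ hb hb')
  let e : V ≃ V := g.trans (Equiv.subtypeUnivEquiv (fun x => Finset.mem_univ x))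
  refine ⟨e, fun a b hab => ?_⟩
  have h3 := hg a (Finset.mem_filter.2 ⟨Finset.mem_univ _, b, hab⟩)
  rw [hf a b hab] at h3
  exact h3

theorem FU : FU_stmt := by
  intro V _ k K _ E c hE a b g hP
  have hf : ∀ x : Fin k, ∃ σ : Equiv.Perm V, ∀ a b, (a, x, b) ∈ E → σ a = b := by
    intro x
    refine FU_ext (fun a b => (a, x, b) ∈ E) ?_ ?_
    · intro a b b' h h'
      exact hE a (x, true) b b' (by simpa [Rl] using h) (by simpa [Rl] using h')
    · intro a a' b h h'
      exact hE b (x, false) a a' (by simpa [Rl] using h) (by simpa [Rl] using h')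
  choose σ hσ using hf
  let c' : V → Fin k → K := fun a x => c (a, x, σ x a)
  have hc' : ∀ a x b, (a, x, b) ∈ E → c' a x = c (a, x, b) := by
    intro a x b h
    show c (a, x, σ x a) = _
    rw [hσ x a b h]
  let T : Fin k → Equiv.Perm (V × K) := fun x =>
    { toFun := fun p => (σ x p.1, p.2 * c' p.1 x)
      invFun := fun p => ((σ x).symm p.1, p.2 * (c' ((σ x).symm p.1) x)⁻¹)
      left_inv := by
        rintro ⟨p, q⟩
        simp
      right_inv := by
        rintro ⟨p, q⟩
        simp }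
  let Φ : Fr k →* (Equiv.Perm (V × K))ᵐᵒᵖ := FreeGroup.lift fun x => MulOpposite.op (T x)
  have hΦ : ∀ x, (Φ (FreeGroup.of x)).unop = T x := by
    intro x
    show (FreeGroup.lift (fun x => MulOpposite.op (T x)) (FreeGroup.of x)).unop = T x
    rw [FreeGroup.lift_apply_of]
    rfl
  have hT : ∀ (x : Fin k) (u w : V) (κ : K), (u, x, w) ∈ E → T x (u, κ) = (w, κ * c (u, x, w)) := by
    intro x u w κ h
    show (σ x u, κ * c' u x) = _
    rw [hσ x u w h, hc' u x w h]
  have key : ∀ (a b : V) (p : Fr k × K), PL (lfc E c) a b p →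
      ∀ κ : K, (Φ p.1).unop (a, κ) = (b, κ * p.2) := by
    intro a b p hp
    induction hp with
    | nil =>
      intro κ
      show (Φ 1).unop (a, κ) = (a, κ * 1)
      rw [map_one, mul_one]
      rfl
    | @fwd b d g x h he ih =>
      intro κ
      obtain ⟨e, heE, h2⟩ := he
      have h3 : b = e.1 := congrArg Prod.fst h2
      have h4 : x = (FreeGroup.of e.2.1, c e) := congrArg (fun q => q.2.1) h2
      have h5 : d = e.2.2 := congrArg (fun q => q.2.2) h2
      subst h3 h4 h5
      show (Φ (g.1 * FreeGroup.of e.2.1)).unop (a, κ) = (e.2.2, κ * (g.2 * c e))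
      rw [map_mul, MulOpposite.unop_mul, hΦ, Equiv.Perm.mul_apply, ih κ, hT e.2.1 e.1 e.2.2 _ heE,
        mul_assoc]
    | @bwd b d g x h he ih =>
      intro κ
      obtain ⟨e, heE, h2⟩ := he
      have h3 : d = e.1 := congrArg Prod.fst h2
      have h4 : x = (FreeGroup.of e.2.1, c e) := congrArg (fun q => q.2.1) h2
      have h5 : b = e.2.2 := congrArg (fun q => q.2.2) h2
      subst h3 h4 h5
      show (Φ (g.1 * (FreeGroup.of e.2.1)⁻¹)).unop (a, κ) = (e.1, κ * (g.2 * (c e)⁻¹))
      rw [map_mul, map_inv, MulOpposite.unop_mul, MulOpposite.unop_inv, hΦ, Equiv.Perm.mul_apply,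
        ih κ, Equiv.Perm.inv_eq_iff_eq, hT e.2.1 e.1 e.2.2 _ heE]
      rw [mul_assoc, mul_assoc]
      show _ = (e.2.2, κ * (g.2 * ((c e)⁻¹ * c e)))
      rw [inv_mul_cancel, mul_one]
  have h1 := key a b (1, g) hP 1
  have h2 : (Φ 1).unop (a, (1 : K)) = (a, 1) := by
    rw [map_one]; rfl
  have h3 : (a, (1 : K)) = (b, 1 * g) := h2.symm.trans h1
  rw [one_mul] at h3
  exact ⟨congrArg Prod.fst h3, (congrArg Prod.snd h3).symm⟩

end Pool.Agent.WN
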