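import Pool.Agent.helper99.WN.SpecA

set_option autoImplicit false

open Classical

namespace Pool.Agent.WN

theorem MN (hFO : FO_stmt) (hCM : CM_stmt) (hPR : PR_stmt) : MN_stmt := by
  have key : ∀ (n : ℕ) (V : Type) [Fintype V] (k : ℕ) (E : Gr V k) (v0 : V),
      Fintype.card V + E.card ≤ n →
      ∃ (V' : Type) (_ : Fintype V') (E' : Gr V' k) (v0' : V') (g : Fr k),
        Fintype.card V' + E'.card ≤ Fintype.card V + E.card ∧ Imm E' ∧ Conn E' ∧
        (Fintype.card V' = 1 ∨ ∀ v, 2 ≤ deg E' v) ∧
        ∀ h : Fr k, PL (lf E') v0' v0' h ↔ PL (lf E) v0 v0 (g * h * g⁻¹) := by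
    intro n
    induction n with
    | zero =>
      intro V _ k E v0 hn
      haveI : Nonempty V := ⟨v0⟩
      have : 0 < Fintype.card V := Fintype.card_pos
      omega
    | succ n ih =>
      intro V _ k E v0 hn
      by_cases hI : Imm E
      · by_cases hC : Conn E
        · by_cases hD : Fintype.card V = 1 ∨ ∀ v, 2 ≤ deg E v
          · refine ⟨V, inferInstance, E, v0, 1, le_rfl, hI, hC, hD, fun h => ?_⟩
            rw [one_mul, inv_one, mul_one]
          · push Not at hD
            obtain ⟨h1, v, hv⟩ := hD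
            haveI : Nonempty V := ⟨v0⟩
            have h0 : 0 < Fintype.card V := Fintype.card_pos
            obtain ⟨V', i', E', v0', g, hlt, hP⟩ := hPR V k E v0 v (by omega) hC (by omega)
            letI := i'
            obtain ⟨V2, i2, E2, v2, g2, hle, a, b, c, hP2⟩ := ih V' k E' v0' (by omega)
            refine ⟨V2, i2, E2, v2, g * g2, by omega, a, b, c, fun h => ?_⟩
            rw [hP2, hP]
            have e : g * (g2 * h * g2⁻¹) * g⁻¹ = g * g2 * h * (g * g2)⁻¹ := by group
            rw [e]
        · obtain ⟨V', i', E', v0', hlt, hP⟩ := hCM V k E v0 hC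
          letI := i'
          obtain ⟨V2, i2, E2, v2, g2, hle, a, b, c, hP2⟩ := ih V' k E' v0' (by omega)
          refine ⟨V2, i2, E2, v2, g2, by omega, a, b, c, fun h => ?_⟩
          rw [hP2, hP]
      · obtain ⟨V', i', E', v0', hlt, hP⟩ := hFO V k E v0 hI
        letI := i'
        obtain ⟨V2, i2, E2, v2, g2, hle, a, b, c, hP2⟩ := ih V' k E' v0' (by omega)
        refine ⟨V2, i2, E2, v2, g2, by omega, a, b, c, fun h => ?_⟩
        rw [hP2, hP]
  intro V _ k E v0
  exact key _ V k E v0 le_rfl

end Pool.Agent.WN
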