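import Pool.Agent.helper99.WN.SpecA

set_option autoImplicit false

open Classical

namespace Pool.Agent.WN

theorem PR_leave {V K : Type} [Group K] {S : Set (V × K × V)} {a b : V} {g : K}
    (h : PL S a b g) : a ≠ b → ∃ x c, (a, x, c) ∈ S ∨ (c, x, a) ∈ S := by
  induction h with
  | nil => intro h; exact absurd rfl h
  | @fwd b c g x h he ih =>
    intro hac
    by_cases hab : a = b
    · subst hab
      exact ⟨x, c, Or.inl he⟩
    · exact ih hab
  | @bwd b c g x h he ih =>
    intro hac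
    by_cases hab : a = b
    · subst hab
      exact ⟨x, c, Or.inr he⟩
    · exact ih hab

theorem PR : PR_stmt := by
  intro V _ k E v0 v hcard hconn hdeg
  obtain ⟨w, hw⟩ : ∃ w : V, w ≠ v := by
    haveI : Nontrivial V := Fintype.one_lt_card_iff_nontrivial.1 (by omega)
    exact exists_ne v
  obtain ⟨p, hp⟩ := hconn v w
  obtain ⟨x0, c0, hx0⟩ := PR_leave hp hw.symm
  -- the edge at v
  obtain ⟨v1, l, e, heE, hev, hPL, hcase⟩ : ∃ (v1 : V) (l : Fr k) (e : V × Fin k × V), e ∈ E ∧
      (e.1 = v ∨ e.2.2 = v) ∧ PL (lf E) v v1 l ∧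
      ((e.1 = v ∧ e.2.2 = v1 ∧ l = FreeGroup.of e.2.1) ∨
        (e.1 = v1 ∧ e.2.2 = v ∧ l = (FreeGroup.of e.2.1)⁻¹)) := by
    rcases hx0 with h | h
    · obtain ⟨e, he, h2⟩ := h
      have h3 : v = e.1 := congrArg Prod.fst h2
      have h4 : x0 = FreeGroup.of e.2.1 := congrArg (fun q => q.2.1) h2
      have h5 : c0 = e.2.2 := congrArg (fun q => q.2.2) h2
      refine ⟨c0, x0, e, he, Or.inl h3.symm, PL.edge ⟨e, he, h2⟩, Or.inl ⟨h3.symm, h5.symm, h4⟩⟩
    · obtain ⟨e, he, h2⟩ := h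
      have h3 : c0 = e.1 := congrArg Prod.fst h2
      have h4 : x0 = FreeGroup.of e.2.1 := congrArg (fun q => q.2.1) h2
      have h5 : v = e.2.2 := congrArg (fun q => q.2.2) h2
      refine ⟨c0, x0⁻¹, e, he, Or.inr h5.symm, PL.edge' ⟨e, he, h2⟩,
        Or.inr ⟨h3.symm, h5.symm, by rw [h4]⟩⟩
  -- uniqueness of the edge at v
  have huniq : ∀ e' ∈ E, (e'.1 = v ∨ e'.2.2 = v) → e' = e := by
    intro e' he' hv'
    by_contra hne
    have h2 : 2 ≤ deg E v := by
      unfold deg
      rcases hv' with h1 | h1 <;> rcases hev with h3 | h3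
      · have : 2 ≤ (E.filter fun e => e.1 = v).card := by
          have hs : ({e', e} : Finset (V × Fin k × V)) ⊆ E.filter fun e => e.1 = v := by
            intro q hq
            rw [Finset.mem_insert, Finset.mem_singleton] at hq
            rcases hq with rfl | rfl
            · exact Finset.mem_filter.2 ⟨he', h1⟩
            · exact Finset.mem_filter.2 ⟨heE, h3⟩
          have := Finset.card_le_card hs
          rwa [Finset.card_pair hne] at this
        omega
      · have h4 : 0 < (E.filter fun e => e.1 = v).card :=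
          Finset.card_pos.2 ⟨e', Finset.mem_filter.2 ⟨he', h1⟩⟩
        have h5 : 0 < (E.filter fun e => e.2.2 = v).card :=
          Finset.card_pos.2 ⟨e, Finset.mem_filter.2 ⟨heE, h3⟩⟩
        omega
      · have h4 : 0 < (E.filter fun e => e.1 = v).card :=
          Finset.card_pos.2 ⟨e, Finset.mem_filter.2 ⟨heE, h3⟩⟩
        have h5 : 0 < (E.filter fun e => e.2.2 = v).card :=
          Finset.card_pos.2 ⟨e', Finset.mem_filter.2 ⟨he', h1⟩⟩
        omega
      · have : 2 ≤ (E.filter fun e => e.2.2 = v).card := by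
          have hs : ({e', e} : Finset (V × Fin k × V)) ⊆ E.filter fun e => e.2.2 = v := by
            intro q hq
            rw [Finset.mem_insert, Finset.mem_singleton] at hq
            rcases hq with rfl | rfl
            · exact Finset.mem_filter.2 ⟨he', h1⟩
            · exact Finset.mem_filter.2 ⟨heE, h3⟩
          have := Finset.card_le_card hs
          rwa [Finset.card_pair hne] at this
        omega
    omega
  have hloop : ¬ (e.1 = v ∧ e.2.2 = v) := by
    rintro ⟨h1, h3⟩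
    have h4 : 0 < (E.filter fun e => e.1 = v).card :=
      Finset.card_pos.2 ⟨e, Finset.mem_filter.2 ⟨heE, h1⟩⟩
    have h5 : 0 < (E.filter fun e => e.2.2 = v).card :=
      Finset.card_pos.2 ⟨e, Finset.mem_filter.2 ⟨heE, h3⟩⟩
    unfold deg at hdeg
    omega
  have hv1 : v1 ≠ v := by
    rintro rfl
    rcases hcase with ⟨h1, h2, -⟩ | ⟨h1, h2, -⟩
    · exact hloop ⟨h1, h2⟩
    · exact hloop ⟨h1, h2⟩
  let V' := {u : V // u ≠ v}
  let f : V → V' := fun u => if h : u = v then ⟨v1, hv1⟩ else ⟨u, h⟩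
  have hf1 : ∀ u : V, ∀ h : u ≠ v, f u = ⟨u, h⟩ := fun u h => dif_neg h
  have hf2 : f v = ⟨v1, hv1⟩ := dif_pos rfl
  let γ : V → Fr k := fun u => if u = v then l else 1
  have hg1 : ∀ u : V, u ≠ v → γ u = 1 := fun u h => if_neg h
  have hg2 : γ v = l := if_pos rfl
  let E' : Gr V' k := Finset.univ.filter fun q : V' × Fin k × V' => ((q.1 : V), q.2.1, (q.2.2 : V)) ∈ E
  have hE' : ∀ q : V' × Fin k × V', q ∈ E' ↔ ((q.1 : V), q.2.1, (q.2.2 : V)) ∈ E := by
    intro q
    simp [E']
  have hcE : E'.card ≤ E.card := by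
    refine Finset.card_le_card_of_injOn (fun q : V' × Fin k × V' => ((q.1 : V), q.2.1, (q.2.2 : V)))
      (fun q hq => (hE' q).1 hq) ?_
    rintro ⟨a, x, b⟩ - ⟨a', x', b'⟩ - h
    simp only [Prod.mk.injEq] at h
    obtain ⟨h1, h2, h3⟩ := h
    rw [Subtype.ext h1, h2, Subtype.ext h3]
  have hcV : Fintype.card V' < Fintype.card V :=
    Fintype.card_subtype_lt (p := fun u : V => u ≠ v) (x := v) (by simp)
  -- from E' to E
  have down : ∀ a b : V', ∀ h, PL (lf E') a b h → PL (lf E) (a : V) (b : V) h := by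
    intro a b h hP
    refine PL.map (fun u : V' => (u : V)) ?_ hP
    rintro a x b ⟨q, hq, h2⟩
    have h3 : a = q.1 := congrArg Prod.fst h2
    have h4 : x = FreeGroup.of q.2.1 := congrArg (fun q => q.2.1) h2
    have h5 : b = q.2.2 := congrArg (fun q => q.2.2) h2
    rw [h3, h4, h5]
    exact PL.edge (mem_lf ((hE' q).1 hq))
  have up : ∀ a b : V, ∀ h, PL (lf E) a b h → PL (lf E') (f a) (f b) ((γ a)⁻¹ * h * γ b) := by
    intro a b h hP
    refine PL.mor f γ ?_ hP
    rintro a x b ⟨q, hq, h2⟩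
    have h3 : a = q.1 := congrArg Prod.fst h2
    have h4 : x = FreeGroup.of q.2.1 := congrArg (fun q => q.2.1) h2
    have h5 : b = q.2.2 := congrArg (fun q => q.2.2) h2
    subst h3 h4 h5
    by_cases hq' : q.1 = v ∨ q.2.2 = v
    · have hqe := huniq q hq hq'
      rw [hqe]
      rcases hcase with ⟨h1, h2, h3⟩ | ⟨h1, h2, h3⟩
      · rw [h1, h2, hf2, hf1 v1 hv1, hg2, hg1 v1 hv1, h3, inv_mul_cancel, one_mul]
        exact PL.nil _
      · rw [h1, h2, hf2, hf1 v1 hv1, hg2, hg1 v1 hv1, h3, inv_one, one_mul, mul_inv_cancel]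
        exact PL.nil _
    · push Not at hq'
      rw [hf1 _ hq'.1, hf1 _ hq'.2, hg1 _ hq'.1, hg1 _ hq'.2, inv_one, one_mul, mul_one]
      refine PL.edge ?_
      exact ⟨(⟨q.1, hq'.1⟩, q.2.1, ⟨q.2.2, hq'.2⟩), (hE' _).2 hq, rfl⟩
  have hpath : ∀ u : V, PL (lf E) u (f u : V) (γ u) := by
    intro u
    by_cases h : u = v
    · subst h
      rw [hf2, hg2]
      exact hPL
    · rw [hf1 u h, hg1 u h]
      exact PL.nil _
  refine ⟨V', inferInstance, E', f v0, γ v0, by omega, fun h => ⟨fun hP => ?_, fun hP => ?_⟩⟩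
  · exact ((hpath v0).trans (down _ _ _ hP)).trans (hpath v0).symm
  · have h1 := up _ _ _ hP
    have e1 : (γ v0)⁻¹ * (γ v0 * h * (γ v0)⁻¹) * γ v0 = h := by group
    rwa [e1] at h1

end Pool.Agent.WN
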