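import Pool.Agent.helper99.WN.SpecB

set_option autoImplicit false

open Classical

namespace Pool.Agent.WN

section

variable {k : ℕ} {w : Fr k} {n : ℕ}

theorem RB_mul {a b : Fr k} (ha : a ∈ Kn w n) (hb : b ∈ Kn w n) : a * b ∈ Kn w n :=
  (Kn w n).mul_mem ha hb

theorem RB_swap {x c : Fr k} (h : x⁻¹ * c ∈ Kn w n) : x * c⁻¹ ∈ Kn w n := by
  have h1 := conj_mem_Kn x h
  have h2 := (Kn w n).inv_mem h1
  have e : (x * (x⁻¹ * c) * x⁻¹)⁻¹ = x * c⁻¹ := by group
  rwa [e] at h2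

/-- the two labels agree modulo the kernel -/
theorem RB_one {V : Type} {S : Set (V × (Fr k × Fr k) × V)}
    (hS : ∀ a x b, (a, x, b) ∈ S → x.1⁻¹ * x.2 ∈ Kn w n) {a b : V} {p : Fr k × Fr k}
    (h : PL S a b p) : p.1⁻¹ * p.2 ∈ Kn w n := by
  induction h with
  | nil =>
    show (1 : Fr k)⁻¹ * 1 ∈ Kn w n
    rw [inv_one, one_mul]
    exact (Kn w n).one_mem
  | @fwd b c g x h he ih =>
    show (g.1 * x.1)⁻¹ * (g.2 * x.2) ∈ Kn w n
    have e : (g.1 * x.1)⁻¹ * (g.2 * x.2) = (x.1⁻¹ * (g.1⁻¹ * g.2) * x.1) * (x.1⁻¹ * x.2) := by group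
    rw [e]
    exact RB_mul (conj_mem_Kn' _ ih) (hS _ _ _ he)
  | @bwd b c g x h he ih =>
    show (g.1 * x.1⁻¹)⁻¹ * (g.2 * x.2⁻¹) ∈ Kn w n
    have e : (g.1 * x.1⁻¹)⁻¹ * (g.2 * x.2⁻¹) = (x.1 * (g.1⁻¹ * g.2) * x.1⁻¹) * (x.1 * x.2⁻¹) := by
      group
    rw [e]
    exact RB_mul (conj_mem_Kn _ ih) (RB_swap (hS _ _ _ he))

end

theorem RB (hFU : FU_stmt) (hIN : IN_stmt) (hRA : RA_stmt) : RB_stmt := by
  intro V _ k m E W n s e z t0 q u w b hImm hSeg hK hLoop
  let c : V × Fin k × V → Fr k := cc W z s e t0 u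
  have hc1 : ∀ d, d ≠ ed W z t0 → c d = FreeGroup.of d.2.1 := fun d hd => if_neg hd
  have hc2 : c (ed W z t0) = if (W t0).2 = true then X0 W s e t0 u else (X0 W s e t0 u)⁻¹ :=
    if_pos rfl
  let S := lfc E c
  -- the kernel condition for the special edge
  have hX : (lt (W t0))⁻¹ * X0 W s e t0 u ∈ Kn w n := by
    have hlen : (e - s).toNat = (t0 - s).toNat + ((e - t0 - 1).toNat + 1) := by
      have h1 := hSeg.hs
      have h2 := hSeg.he
      omega
    have h3 : s + ((t0 - s).toNat : ℤ) = t0 := by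
      have h1 := hSeg.hs
      omega
    have hK' := hK
    rw [hlen, wd_add, h3, wd_succ'] at hK'
    unfold X0
    have h4 := conj_mem_Kn (wd W (t0 + 1) (e - t0 - 1).toNat * u) ((Kn w n).inv_mem hK')
    have e1 : (lt (W t0))⁻¹ * ((wd W s (t0 - s).toNat)⁻¹ * u⁻¹ *
        (wd W (t0 + 1) (e - t0 - 1).toNat)⁻¹) =
        wd W (t0 + 1) (e - t0 - 1).toNat * u *
          (wd W s (t0 - s).toNat * (lt (W t0) * wd W (t0 + 1) (e - t0 - 1).toNat) * u)⁻¹ *
          (wd W (t0 + 1) (e - t0 - 1).toNat * u)⁻¹ := by group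
    rw [e1]
    exact h4
  have hSK : ∀ a x b, (a, x, b) ∈ S → x.1⁻¹ * x.2 ∈ Kn w n := by
    rintro a x b' ⟨d, hd, h2⟩
    have h4 : x = (FreeGroup.of d.2.1, c d) := congrArg (fun q => q.2.1) h2
    subst h4
    show (FreeGroup.of d.2.1)⁻¹ * c d ∈ Kn w n
    by_cases hde : d = ed W z t0
    · subst hde
      rw [hc2, ed_letter]
      by_cases hW2 : (W t0).2 = true
      · rw [if_pos hW2]
        have : lt (W t0) = FreeGroup.of (W t0).1 := by
          have h5 : W t0 = ((W t0).1, true) := Prod.ext rfl hW2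
          rw [h5, lt_true]
        rw [← this]
        exact hX
      · rw [if_neg hW2]
        have : lt (W t0) = (FreeGroup.of (W t0).1)⁻¹ := by
          have h5 : W t0 = ((W t0).1, false) := Prod.ext rfl (by simpa using hW2)
          rw [h5, lt_false]
        rw [← this]
        exact RB_swap hX
    · rw [hc1 d hde, inv_mul_cancel]
      exact (Kn w n).one_mem
  have hSmem : ∀ d ∈ E, (d.1, ((FreeGroup.of d.2.1, c d) : Fr k × Fr k), d.2.2) ∈ S := fun d hd =>
    ⟨d, hd, rfl⟩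
  have hlift : ∀ {a b : V} {g : Fr k}, PL (lf E) a b g → ∃ g', PL S a b (g, g') := by
    intro a b g hg
    obtain ⟨g', hg', h1⟩ := PL.lift (S' := S) (MonoidHom.fst (Fr k) (Fr k)) (by
      rintro a x b ⟨d, hd, h2⟩
      have h3 : a = d.1 := congrArg Prod.fst h2
      have h4 : x = FreeGroup.of d.2.1 := congrArg (fun q => q.2.1) h2
      have h5 : b = d.2.2 := congrArg (fun q => q.2.2) h2
      subst h3 h4 h5
      exact ⟨(FreeGroup.of d.2.1, c d), rfl, PL.edge (hSmem d hd)⟩) hg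
    refine ⟨g'.2, ?_⟩
    have : g' = (g, g'.2) := Prod.ext hg' rfl
    rwa [this] at h1
  have hproj : ∀ {a b : V} {p : Fr k × Fr k}, PL S a b p → PL (lf E) a b p.1 := by
    intro a b p hp
    refine PL.hom (MonoidHom.fst (Fr k) (Fr k)) ?_ hp
    rintro a x b ⟨d, hd, h2⟩
    have h3 : a = d.1 := congrArg Prod.fst h2
    have h4 : x = (FreeGroup.of d.2.1, c d) := congrArg (fun q => q.2.1) h2
    have h5 : b = d.2.2 := congrArg (fun q => q.2.2) h2
    subst h3 h4 h5
    exact PL.edge (mem_lf hd)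
  have hfun : ∀ {a : V} {h g g' : Fr k}, PL S a a (h, g) → PL S a a (h, g') → g = g' := by
    intro a h g g' h1 h2
    have h3 := h1.trans h2.symm
    have h4 : ((h, g) * (h, g')⁻¹ : Fr k × Fr k) = (1, g * g'⁻¹) := by
      rw [Prod.inv_mk, Prod.mk_mul_mk, mul_inv_cancel]
    rw [h4] at h3
    exact mul_inv_eq_one.1 (hFU V k (Fr k) E c hImm a a _ h3).2
  have hbi : ∀ i, ∃ g', PL S (z s) (z s) (b i, g') := fun i =>
    hlift ((hLoop (b i)).2 (Subgroup.subset_closure ⟨i, rfl⟩))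
  choose b' hb' using hbi
  have hcl1 : ∀ h ∈ Subgroup.closure (Set.range b), ∃ g ∈ Subgroup.closure (Set.range b'),
      PL S (z s) (z s) (h, g) := by
    intro h hh
    induction hh using Subgroup.closure_induction with
    | mem x hx =>
      obtain ⟨i, rfl⟩ := hx
      exact ⟨b' i, Subgroup.subset_closure ⟨i, rfl⟩, hb' i⟩
    | one => exact ⟨1, Subgroup.one_mem _, PL.nil _⟩
    | mul x y _ _ hx hy =>
      obtain ⟨g1, h1, h2⟩ := hx
      obtain ⟨g2, h3, h4⟩ := hy
      exact ⟨g1 * g2, Subgroup.mul_mem _ h1 h3, h2.trans h4⟩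
    | inv x _ hx =>
      obtain ⟨g1, h1, h2⟩ := hx
      exact ⟨g1⁻¹, Subgroup.inv_mem _ h1, h2.symm⟩
  have hcl2 : ∀ g ∈ Subgroup.closure (Set.range b'), ∃ h, PL S (z s) (z s) (h, g) := by
    intro g hg
    induction hg using Subgroup.closure_induction with
    | mem x hx =>
      obtain ⟨i, rfl⟩ := hx
      exact ⟨b i, hb' i⟩
    | one => exact ⟨1, PL.nil _⟩
    | mul x y _ _ hx hy =>
      obtain ⟨g1, h1⟩ := hx
      obtain ⟨g2, h2⟩ := hy
      exact ⟨g1 * g2, h1.trans h2⟩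
    | inv x _ hx =>
      obtain ⟨g1, h1⟩ := hx
      exact ⟨g1⁻¹, h1.symm⟩
  have hG : ∀ g, g ∈ Subgroup.closure (Set.range b') ↔ ∃ h, PL S (z s) (z s) (h, g) := by
    intro g
    refine ⟨hcl2 g, ?_⟩
    rintro ⟨h, hh⟩
    obtain ⟨g', hg', h2⟩ := hcl1 h ((hLoop h).1 (hproj hh))
    rw [hfun hh h2]
    exact hg'
  refine ⟨b', ?_, ?_, ?_⟩
  · intro i
    exact RB_one hSK (hb' i)
  · intro h
    rw [hG]
    have hzs : z s ∉ II z t0 q := by
      intro hmem
      unfold II at hmem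
      rw [Finset.mem_image] at hmem
      obtain ⟨t, ht, hzt⟩ := hmem
      rw [Finset.mem_Ioc] at ht
      exact (hSeg.inner t ht.1 ht.2).2.1 hzt
    have hE1 : ∀ d ∈ E1 E W z t0 q, c d = FreeGroup.of d.2.1 := by
      intro d hd
      apply hc1
      rintro rfl
      unfold E1 at hd
      rw [Finset.mem_sdiff] at hd
      exact hd.2 (Finset.mem_image_of_mem _ (Finset.mem_Icc.2 ⟨le_rfl, by omega⟩))
    constructor
    · intro hp
      obtain ⟨g', hg', h1⟩ := PL.lift
        (S' := lfc (E1 E W z t0 q) (cc W z s e t0 u) ∪ {(z e, ((wd W s (e - s).toNat)⁻¹, u), z s)})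
        (MonoidHom.snd (Fr k) (Fr k)) (by
        rintro a x b (⟨d, hd, h2⟩ | h2)
        · have h3 : a = d.1 := congrArg Prod.fst h2
          have h4 : x = FreeGroup.of d.2.1 := congrArg (fun q => q.2.1) h2
          have h5 : b = d.2.2 := congrArg (fun q => q.2.2) h2
          subst h3 h4 h5
          exact ⟨(FreeGroup.of d.2.1, c d), hE1 d hd, PL.edge (Or.inl ⟨d, hd, rfl⟩)⟩
        · have h2' := Set.mem_singleton_iff.1 h2
          have h3 : a = z e := congrArg Prod.fst h2'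
          have h4 : x = u := congrArg (fun q => q.2.1) h2'
          have h5 : b = z s := congrArg (fun q => q.2.2) h2'
          subst h3 h4 h5
          exact ⟨((wd W s (e - s).toNat)⁻¹, x), rfl, PL.edge (Or.inr rfl)⟩) hp
      rw [← hRA V k E W s e z t0 q u hSeg (z s) (z s) hzs hzs] at h1
      refine ⟨g'.1, ?_⟩
      have : g' = (g'.1, h) := Prod.ext rfl hg'
      rwa [this] at h1
    · rintro ⟨h', hh'⟩
      have h1 := (hRA V k E W s e z t0 q u hSeg (z s) (z s) hzs hzs _).1 hh'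
      refine PL.hom (MonoidHom.snd (Fr k) (Fr k)) (S' := lf (E1 E W z t0 q) ∪ {(z e, u, z s)}) ?_ h1
      rintro a x b (⟨d, hd, h2⟩ | h2)
      · have h3 : a = d.1 := congrArg Prod.fst h2
        have h4 : x = (FreeGroup.of d.2.1, c d) := congrArg (fun q => q.2.1) h2
        have h5 : b = d.2.2 := congrArg (fun q => q.2.2) h2
        subst h3 h4 h5
        show PL _ d.1 d.2.2 (c d)
        rw [hE1 d hd]
        exact PL.edge (Or.inl (mem_lf hd))
      · have h2' := Set.mem_singleton_iff.1 h2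
        have h3 : a = z e := congrArg Prod.fst h2'
        have h4 : x = ((wd W s (e - s).toNat)⁻¹, u) := congrArg (fun q => q.2.1) h2'
        have h5 : b = z s := congrArg (fun q => q.2.2) h2'
        subst h3 h4 h5
        exact PL.edge (Or.inr rfl)
  · intro i y g u' hu' hg hbi
    obtain ⟨g', hg'⟩ := hlift hg
    have h1 : PL S y y (u', u') := by
      refine PL.hom ((MonoidHom.id (Fr k)).prod (MonoidHom.id (Fr k))) ?_ hu'
      rintro a x b ⟨d, hd, h2⟩
      have h3 : a = d.1 := congrArg Prod.fst h2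
      have h4 : x = FreeGroup.of d.2.1 := congrArg (fun q => q.2.1) h2
      have h5 : b = d.2.2 := congrArg (fun q => q.2.2) h2
      subst h3 h4 h5
      rw [Finset.mem_erase] at hd
      have h6 := hSmem d hd.2
      rw [hc1 d hd.1] at h6
      exact PL.edge h6
    have h2 := (hg'.trans h1).trans hg'.symm
    have h3 : ((g, g') * (u', u') * (g, g')⁻¹ : Fr k × Fr k) = (g * u' * g⁻¹, g' * u' * g'⁻¹) := rfl
    rw [h3, ← hbi] at h2
    exact ⟨g', hfun (hb' i) h2⟩

end Pool.Agent.WN
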